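import Mathlib

open Polynomial Complex Real

namespace Pool.Agent.Results.MP_06877e_nt.Counter

/-- The value at `x` of the polynomial whose roots are the `e^(2 π i k^2 / p)`. -/
noncomputable def S (p : ℕ) (x : ℂ) : ℂ :=
  ∏ k ∈ Finset.Icc 1 ((p - 1) / 2), (x - cexp (2 * π * I * (k : ℂ) ^ 2 / p))

/-- The cube root of unity `e^(2 π i / 3)`. -/
noncomputable def ω : ℂ := cexp (2 * π * I / 3)

noncomputable def θ : ℂ := cexp (2 * π * I / (321 : ℕ))

lemma prim : IsPrimitiveRoot θ 321 := Complex.isPrimitiveRoot_exp 321 (by norm_num)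

def A {R : Type*} [CommRing R] (a : ℕ) (t : R) : R :=
  ∏ k ∈ Finset.Icc 1 53, ((t ^ (a % 321) - t ^ (3 * k ^ 2 % 321)) *
    (t ^ (320 * a % 321) - t ^ (320 * (3 * k ^ 2) % 321)))

lemma cj (m : ℕ) : (starRingEnd ℂ) (θ ^ m) = θ ^ (320 * m) := by
  have h : ‖θ‖ = 1 := prim.norm'_eq_one (by norm_num)
  rw [map_pow, pow_mul, ← Complex.inv_eq_conj h]
  congr 1
  exact inv_eq_of_mul_eq_one_right (by rw [← pow_succ', prim.pow_eq_one])

lemma nS (a : ℕ) : ((‖S 107 (θ ^ a)‖ ^ 2 : ℝ) : ℂ) = A a θ := by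
  rw [← Complex.normSq_eq_norm_sq, ← Complex.mul_conj, S, map_prod, ← Finset.prod_mul_distrib, A]
  refine Finset.prod_congr rfl fun k _ => ?_
  have : cexp (2 * π * I * (k : ℂ) ^ 2 / (107 : ℕ)) = θ ^ (3 * k ^ 2) := by
    rw [θ, ← Complex.exp_nat_mul]; congr 1; push_cast; ring
  rw [this, map_sub, cj, cj]
  simp only [← pow_eq_pow_mod _ prim.pow_eq_one]

instance : Fact (Nat.Prime 643) := ⟨by norm_num⟩

lemma key {a : ℕ} (h : A a θ ^ 2 - 430 * A a θ + 1 = 0) :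
    A a (7 : ZMod 643) ^ 2 - 430 * A a 7 + 1 = 0 := by
  have g : IsPrimitiveRoot (7 : ZMod 643) 321 :=
    IsPrimitiveRoot.mk_of_lt _ (by norm_num) (by decide +kernel) fun l h0 h1 =>
      (by decide +kernel : ∀ l < 321, 0 < l → (7 : ZMod 643) ^ l ≠ 1) l h1 h0
  have d : cyclotomic 321 ℤ ∣ A a X ^ 2 - 430 * A a X + 1 := by
    rw [cyclotomic_eq_minpoly prim (by norm_num)]
    refine minpoly.isIntegrallyClosed_dvd (prim.isIntegral (by norm_num)) ?_
    rw [← h]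
    simp [A, map_prod, map_ofNat]
  have r := g.isRoot_cyclotomic (by norm_num)
  rw [← map_cyclotomic_int, IsRoot, ← algebraMap_int_eq, eval_map_algebraMap] at r
  have := aeval_eq_zero_of_dvd_aeval_eq_zero d r
  rw [← this]
  simp [A, map_prod, map_ofNat]

theorem result : ∃ p x y : ℕ, p.Prime ∧ 3 < p ∧ p % 4 = 3 ∧
    (0 < x ∧ 0 < y ∧ 3 * (x : ℤ) ^ 2 + 4 * legendreSym 3 p = p * y ^ 2) ∧
    (∀ x' y' : ℕ, 0 < x' → 0 < y' → 3 * (x' : ℤ) ^ 2 + 4 * legendreSym 3 p = p * y' ^ 2 →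
      x ≤ x' ∧ y ≤ y') ∧
    ∀ u : ℂ, ‖u‖ = 1 →
      S p ω ≠ u * ((1 / 2 * (x * √3 - y * √p) : ℝ) : ℂ) ∧
      S p ((starRingEnd ℂ) ω) ≠ u * ((1 / 2 * (x * √3 + y * √p) : ℝ) : ℂ) := by
  have l : legendreSym 3 (107 : ℕ) = -1 := by decide
  have w : ω = θ ^ 107 := by
    rw [θ, ω, ← Complex.exp_nat_mul]; congr 1; push_cast; ring
  refine ⟨107, 12, 2, by norm_num, by norm_num, by norm_num, ⟨by norm_num, by norm_num, by
    rw [l]; norm_num⟩, fun x y hx hy h => ?_, fun u hu => ?_⟩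
  · rw [l] at h
    have h' : 3 * x ^ 2 = 107 * y ^ 2 + 4 := by zify; push_cast at h; linarith
    have : 2 ≤ y := by
      by_contra c
      obtain rfl : y = 1 := by omega
      have : x ≤ 7 := by nlinarith
      interval_cases x <;> omega
    exact ⟨by nlinarith, this⟩
  have s3 : √3 ^ 2 = 3 := Real.sq_sqrt (by norm_num)
  have s7 : √(107 : ℕ) ^ 2 = 107 := by rw [Real.sq_sqrt (by positivity)]; norm_num
  have G : ∀ a (r : ℝ), (r ^ 2) ^ 2 - 430 * r ^ 2 + 1 = 0 → S 107 (θ ^ a) = u * r →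
      A a (7 : ZMod 643) ^ 2 - 430 * A a 7 + 1 = 0 := fun a r hr e => key (by
    rw [← nS, e, norm_mul, hu, one_mul, Complex.norm_real, Real.norm_eq_abs, sq_abs]
    exact_mod_cast hr)
  rw [w, cj]
  generalize √3 = a at *
  generalize √(107 : ℕ) = b at *
  refine ⟨fun e => absurd (G _ _ ?_ e) (by decide +kernel),
    fun e => absurd (G _ _ ?_ e) (by decide +kernel)⟩
  · push_cast
    have : (1 / 2 * (12 * a - 2 * b)) ^ 2 = 215 - 12 * (a * b) := by
      linear_combination 36 * s3 + s7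
    rw [this]
    linear_combination 144 * b ^ 2 * s3 + 432 * s7
  · push_cast
    have : (1 / 2 * (12 * a + 2 * b)) ^ 2 = 215 + 12 * (a * b) := by
      linear_combination 36 * s3 + s7
    rw [this]
    linear_combination 144 * b ^ 2 * s3 + 432 * s7

end Pool.Agent.Results.MP_06877e_nt.Counter
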